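import Pool.Agent.H604R2.VDMain

/-!
# min-Cost-VERTEX-DEL has no constant-factor approximation (under UGC and `P ≠ NP`)
-/

namespace Pool.Agent.Results.MP_f82fc2_lc.NoConstApprox

open Pool.Agent.NPC Pool.Agent.NPC.H604

/-- Assume the Unique Games Conjecture and `P ≠ NP`. Then for no constant `α` is there a
polynomial-time `α`-approximation algorithm for min-Cost-VERTEX-DEL, not even on the instances
whose vertex costs are natural numbers taking only two values. -/
theorem result (hUGC : UGC) (hPNP : PNeNP) (α : ℝ) :
    ¬ ∃ A : List Bool → List Bool, PolyTime A ∧ Approximates α A :=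
  main hUGC.gapCSP hPNP α

end Pool.Agent.Results.MP_f82fc2_lc.NoConstApprox
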