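import Pool.Agent.H569R2.VDel.Main

/-!
# min-Cost-VERTEX-DEL is as hard to approximate as Set Cover

Definitions: `Pool/Agent/H569R2/VDel/Defs.lean` and `Pool/Agent/NPC/Defs.lean`.
-/

namespace Pool.Agent.Results.MP_f82fc2_lc.NoConstantFactor

open Pool.Agent.H569R2.VDel Pool.Agent.NPC

theorem SCApprox.mono {β β' : ℝ} (h : SCApprox β) (hb : β ≤ β') : SCApprox β' := by
  obtain ⟨F, hF, hs⟩ := h
  refine ⟨F, hF, fun I => ?_⟩
  obtain ⟨C, h1, h2, h3⟩ := hs I
  exact ⟨C, h1, h2, fun C' hC' => (h3 C' hC').trans (mul_le_mul_of_nonneg_right hb (by positivity))⟩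

theorem VDApprox.mono {P P' : Inst → Prop} {α α' : ℝ} (h : VDApprox P α) (hP : ∀ I, P' I → P I)
    (hb : α ≤ α') : VDApprox P' α' := by
  obtain ⟨F, hF, hs⟩ := h
  refine ⟨F, hF, fun I hI => ?_⟩
  obtain ⟨S, h1, h2, h3⟩ := hs I (hP I hI)
  exact ⟨S, h1, h2, fun S' hS' => (h3 S' hS').trans (mul_le_mul_of_nonneg_right hb (by positivity))⟩

/-- For all `α ≥ 1` and `ε > 0`, a polynomial-time `α`-approximation algorithm for
min-Cost-VERTEX-DEL restricted to two-valued costs yields a polynomial-time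
`(1 + ε) α`-approximation algorithm for Set Cover.  Hence, if Set Cover has no polynomial-time
constant-factor approximation algorithm, then neither has min-Cost-VERTEX-DEL, even if every vertex
has one of only two costs. -/
theorem result :
    (∀ α ε : ℝ, 1 ≤ α → 0 < ε → VDApprox TwoCosts α → SCApprox ((1 + ε) * α)) ∧
    ((∀ β : ℝ, ¬ SCApprox β) →
      ∀ α : ℝ, ¬ VDApprox TwoCosts α ∧ ¬ VDApprox (fun _ => True) α) := by
  have key : ∀ α ε : ℝ, 1 ≤ α → 0 < ε → VDApprox TwoCosts α → SCApprox ((1 + ε) * α) := by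
    intro α ε hα hε h
    obtain ⟨q, hq⟩ := exists_nat_gt (1 / ε)
    have hq0 : (0 : ℝ) < q := lt_trans (by positivity) hq
    have hq1 : 1 ≤ q := by
      rw [Nat.one_le_iff_ne_zero]
      rintro rfl
      simp at hq0
    refine SCApprox.mono (scApprox_of_vdApprox hα q hq1 h) ?_
    rw [mul_comm]
    refine mul_le_mul_of_nonneg_right ?_ (by linarith)
    have : 1 / (q : ℝ) ≤ ε := by
      rw [div_le_iff₀ hq0]
      rw [div_lt_iff₀ hε] at hq
      linarith
    linarith
  refine ⟨key, fun hno α => ?_⟩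
  have h1 : ¬ VDApprox TwoCosts α := fun h =>
    hno _ (key (max α 1) 1 (le_max_right _ _) one_pos (VDApprox.mono h (fun _ h => h)
      (le_max_left _ _)))
  exact ⟨h1, fun h => h1 (VDApprox.mono h (fun _ _ => trivial) le_rfl)⟩

end Pool.Agent.Results.MP_f82fc2_lc.NoConstantFactor
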